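import Mathlib
import Pool.Agent.H75.LimDir

/-! A space-like limit direction of the Lorentzian `(2, 3, ∞)` triangle group which does not arise
through powers of one element. -/

set_option autoImplicit false

namespace Pool.Agent.Results.MP_55c352_al.Cusp

open Matrix Filter Topology Pool.Agent.H75.LimDir

/-- The points of `ℙ V` given by the vectors `y j` are pairwise distinct and converge to the point
given by `x`. -/
def Arises (y : ℕ → Fin 3 → ℝ) (x : Fin 3 → ℝ) : Prop :=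
  (∀ i j, i ≠ j → ∀ t : ℝ, y i ≠ t • y j) ∧
    ∃ t : ℕ → ℝ, Tendsto (fun j => t j • y j) atTop (𝓝 x)

def M : CoxeterMatrix (Fin 3) where
  M := !![1, 3, 2; 3, 1, 0; 2, 0, 1]

noncomputable def B : Matrix (Fin 3) (Fin 3) ℝ := !![1, -1 / 2, 0; -1 / 2, 1, -1; 0, -1, 1]

def R : Fin 3 → Matrix (Fin 3) (Fin 3) ℤ :=
  ![!![-1, 1, 0; 0, 1, 0; 0, 0, 1], !![1, 0, 0; 1, -1, 2; 0, 0, 1], !![1, 0, 0; 0, 1, 0; 0, 2, -1]]

noncomputable def ρ : M.Group →* Matrix (Fin 3) (Fin 3) ℝ :=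
  (Int.castRingHom ℝ).mapMatrix.toMonoidHom.comp (M.toCoxeterSystem.lift ⟨R, by
    unfold CoxeterMatrix.IsLiftable; decide⟩)

theorem ρ_s (s : Fin 3) : ρ (M.toCoxeterSystem.simple s) = (R s).map (↑) := by
  exact congrArg (Int.castRingHom ℝ).mapMatrix (M.toCoxeterSystem.lift_apply_simple _ s)

def L : Matrix (Fin 3) (Fin 3) ℝ := !![1, -1, 0; 0, -1, 1; -1, 0, 0]
def L' : Matrix (Fin 3) (Fin 3) ℝ := !![0, 0, -1; -1, 0, -1; -1, 1, -1]

theorem LL : L * L' = 1 := by
  ext i j; fin_cases i <;> fin_cases j <;> simp [L, L', mul_apply, Fin.sum_univ_three]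

theorem LL' : L' * L = 1 := mul_eq_one_comm.1 LL

def Rep (w : M.Group) (a b c d : ℤ) : Prop := L * ρ w * L' = Sy a b c d

theorem Rep.mul {w w' : M.Group} {a b c d a' b' c' d' : ℤ} (h : Rep w a b c d)
    (h' : Rep w' a' b' c' d') :
    Rep (w * w') (a * a' + b * c') (a * b' + b * d') (c * a' + d * c') (c * b' + d * d') := by
  unfold Rep at *
  push_cast
  rw [← Sy_mul, ← h, ← h', map_mul]
  simp only [mul_assoc]
  rw [← mul_assoc L' L, LL', one_mul]

theorem r0 : Rep (M.toCoxeterSystem.simple 0) 0 1 1 0 := by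
  unfold Rep; rw [ρ_s]; ext i j
  fin_cases i <;> fin_cases j <;>
    simp [L, L', R, Sy, mul_apply, vecMul, dotProduct, Fin.sum_univ_three]

theorem r1 : Rep (M.toCoxeterSystem.simple 1) (-1) 1 0 1 := by
  unfold Rep; rw [ρ_s]; ext i j
  fin_cases i <;> fin_cases j <;>
    simp [L, L', R, Sy, mul_apply, vecMul, dotProduct, Fin.sum_univ_three] <;> norm_num

theorem r2 : Rep (M.toCoxeterSystem.simple 2) (-1) 0 0 1 := by
  unfold Rep; rw [ρ_s]; ext i j
  fin_cases i <;> fin_cases j <;>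
    simp [L, L', R, Sy, mul_apply, vecMul, dotProduct, Fin.sum_univ_three] <;> norm_num

theorem one : Rep 1 1 0 0 1 := by
  unfold Rep; rw [map_one, mul_one, LL]; ext i j
  fin_cases i <;> fin_cases j <;> simp [Sy]

theorem all (w : M.Group) : ∃ a b c d, (a * d - b * c) ^ 2 = 1 ∧ Rep w a b c d := by
  induction w using M.toCoxeterSystem.simple_induction with
  | simple i =>
    fin_cases i
    exacts [⟨_, _, _, _, by norm_num, r0⟩, ⟨_, _, _, _, by norm_num, r1⟩,
      ⟨_, _, _, _, by norm_num, r2⟩]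
  | one => exact ⟨_, _, _, _, by norm_num, one⟩
  | mul w w' h h' =>
    obtain ⟨a, b, c, d, e, h⟩ := h
    obtain ⟨a', b', c', d', e', h'⟩ := h'
    exact ⟨_, _, _, _, by linear_combination (a' * d' - b' * c') ^ 2 * e + e', h.mul h'⟩

theorem onto (g : SpecialLinearGroup (Fin 2) ℤ) : ∃ w, Rep w (g 0 0) (g 0 1) (g 1 0) (g 1 1) := by
  have : g ∈ Subgroup.closure {ModularGroup.S, ModularGroup.T} := by
    simp [SpecialLinearGroup.SL2Z_generators]
  induction this using Subgroup.closure_induction'' with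
  | mem g hg =>
    rcases hg with rfl | rfl
    · exact ⟨_, by simpa using r2.mul r0⟩
    · exact ⟨_, by simpa [ModularGroup.coe_T] using r1.mul r2⟩
  | inv_mem g hg =>
    rcases hg with rfl | rfl
    · exact ⟨_, by simpa [SpecialLinearGroup.coe_inv, adjugate_fin_two] using r0.mul r2⟩
    · exact ⟨_, by simpa [ModularGroup.coe_T_inv] using r2.mul r1⟩
  | one => exact ⟨1, by simpa using one⟩
  | mul g h _ _ hg hh =>
    obtain ⟨w, hw⟩ := hg
    obtain ⟨w', hw'⟩ := hh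
    exact ⟨_, by simpa [mul_apply, Fin.sum_univ_two] using hw.mul hw'⟩

theorem result : ∃ (M : CoxeterMatrix (Fin 3)) (B : Matrix (Fin 3) (Fin 3) ℝ)
    (ρ : M.Group →* Matrix (Fin 3) (Fin 3) ℝ), B.IsSymm ∧
    (∀ s t, if M s t = 0 then B s t ≤ -1 else B s t = -Real.cos (Real.pi / M s t)) ∧
    (∀ s v, ρ (M.simple s) *ᵥ v = v - (2 * (B *ᵥ v) s) • Pi.single s 1) ∧
    (∃ P : Matrix (Fin 3) (Fin 3) ℝ, P.det ≠ 0 ∧ Pᵀ * B * P = diagonal ![1, 1, -1]) ∧
    ∃ x : Fin 3 → ℝ, 0 < x ⬝ᵥ B *ᵥ x ∧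
      (∃ p ≠ 0, ∃ g : ℕ → M.Group, Arises (fun k => ρ (g k) *ᵥ p) x) ∧
      ∀ (w : M.Group) (p : Fin 3 → ℝ) (k : ℕ → ℤ), StrictMono k →
        ¬ Arises (fun j => ρ (w ^ k j) *ᵥ p) x := by
  obtain ⟨α, β, a, b, c, d, h1, h2⟩ := pos
  refine ⟨M, B, ρ, ?_, fun s t => ?_, fun s v => ?_, ⟨!![1, 0, -1; 0, 0, -2; 0, 1, -2], ?_, ?_⟩,
    L' *ᵥ ![2 * β, 1, 0], ?_, ⟨L' *ᵥ ![2 * α, 1, 0], fun h => ?_, ?_⟩, fun w p k hk h => ?_⟩
  · ext i j; fin_cases i <;> fin_cases j <;> simp [B]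
  · fin_cases s <;> fin_cases t <;> simp [M, B] <;> norm_num
  · rw [show M.simple s = M.toCoxeterSystem.simple s from rfl, ρ_s]
    funext i
    fin_cases s <;> fin_cases i <;> simp [R, B, mulVec, dotProduct, Fin.sum_univ_three] <;> ring
  · simp [det_fin_three]
  · ext i j
    fin_cases i <;> fin_cases j <;> simp [B, mul_apply, Fin.sum_univ_three] <;> norm_num
  · simp [L', B, mulVec, dotProduct, Fin.sum_univ_three]
  · have := congrFun (congrArg (L *ᵥ ·) h) 1
    simp [LL] at this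
  · choose g hg using fun k => onto ⟨!![a k, b k; c k, d k], by rw [det_fin_two_of, h1]⟩
    refine ⟨g, ?_⟩
    have := h2.map L' L LL
    have e : ∀ k, L' * Sy (a k) (b k) (c k) (d k) = ρ (g k) * L' := fun k => by
      rw [← show _ = Sy (a k) (b k) (c k) (d k) from hg k, ← mul_assoc, ← mul_assoc, LL', one_mul]
    simp only [mulVec_mulVec, e] at this ⊢
    exact this
  obtain ⟨a, b, c, d, e, hw⟩ := all w
  refine noPow a b c d e (L *ᵥ ρ (w ^ k 0) *ᵥ p) (fun j => (k j - k 0).toNat) (fun i j hij => ?_) β ?_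
  · have := hk hij
    have := hk.monotone (Nat.zero_le i)
    simp only
    omega
  have := Ar.map h L L' LL'
  have e2 : ∀ n : ℕ, Sy a b c d ^ n * L = L * ρ w ^ n := fun n => by
    induction n with
    | zero => simp
    | succ n ih =>
      rw [pow_succ', mul_assoc, ih, ← show _ = Sy a b c d from hw, pow_succ']
      simp only [mul_assoc]
      rw [← mul_assoc L' L, LL', one_mul]
  have e3 : ∀ j, Sy a b c d ^ (k j - k 0).toNat * (L * ρ (w ^ k 0)) = L * ρ (w ^ k j) := fun j => by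
    rw [← mul_assoc, e2, mul_assoc, ← map_pow, ← map_mul, ← zpow_natCast, ← _root_.zpow_add,
      Int.toNat_of_nonneg (sub_nonneg.2 (hk.monotone (Nat.zero_le j))), sub_add_cancel]
  simpa only [mulVec_mulVec, e3, LL, one_mulVec] using this

end Pool.Agent.Results.MP_55c352_al.Cusp
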